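import Pool.Agent.R782.SevenLim

/-!
# The torsions of the finite normal coverings of a closed `7`-manifold need not converge

`Γ = Heis ℤ` is the discrete Heisenberg group. A term `X : ThreeCx Γ` consists of a finite
presentation with a homomorphism `φ` of the free group to `Γ` which kills the relators, and of a
matrix `b3` over `ℤ[Γ]` with `b3 * b2 = 0`, where `b2` is the matrix of the Fox derivatives of the
relators. If `φ` is onto and its kernel is the normal closure of the relators, then `Γ` is the
fundamental group of the presentation complex and the rows of `b3` are elements of its second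
homotopy group, so `X` is the cellular chain complex of the universal covering of a finite
`3`-dimensional complex `K` with one vertex and `π_1 K = Γ`. The complex `K` has a thickening `W` of
dimension `7`, and the double `M` of `W` is a closed `7`-manifold with `π_1 M = Γ`; the cellular
chain complex of its universal covering is `X.sevenManifold = C_*(X) ⊕ C^{7-*}(X)`.

The proof takes for `K` the Heisenberg nilmanifold, wedged with a `2`-sphere, with one more `3`-cell
attached to the sphere by the group ring element `1 + 10 t - 10 u t`, or by `1`. The logarithmic
torsions of the coverings of the two manifolds differ at the level `i` by twice the normalised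
logarithm of the determinant of `1 + 10 t - 10 u t` over the finite group `Γ / N i`, which oscillates.
-/

namespace Pool.Agent.Results.MP_75c153_gt.SevenManifoldFiniteCovers

open Pool.Agent.TH630.Tor Pool.Agent.Helper993 Pool.Agent.Helper993.HeisDet Pool.Agent.R782
  Filter Topology

theorem result : ∃ X : ThreeCx (Heis ℤ),
    Function.Surjective X.φ ∧ X.φ.ker = Subgroup.normalClosure (Set.range X.rel) ∧
    X.sevenManifold.DetL2Acyclic ∧
    ∃ (N : ℕ → Subgroup (Heis ℤ)) (_ : ∀ i, (N i).Normal),
      N 0 = ⊤ ∧ StrictAnti N ∧ ⨅ i, N i = ⊥ ∧ (∀ i, (N i).FiniteIndex) ∧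
      (∀ i n, 0 < FK.fkDet ((X.sevenManifold.quot (N i)).laplacian n)) ∧
      ∀ L : ℝ, ¬ Tendsto (fun i => (X.sevenManifold.quot (N i)).l2torsion) atTop (𝓝 L) := by
  obtain ⟨b, hb⟩ := exists_no_limit7
  refine ⟨hcx b, hφ_surj, hφ_ker, hcx_acyclic b, chain, chain_normal, chain_zero,
    LT.chain_strictAnti, chain_inf, fun i => Subgroup.finiteIndex_of_finite_quotient, ?_, hb⟩
  intro i n
  rw [FreeCx.laplacian_eq]
  exact fkDet_pos_finite _

end Pool.Agent.Results.MP_75c153_gt.SevenManifoldFiniteCovers
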